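import Mathlib
import Pool.Agent.Y733.FF.Main
import Pool.Agent.Y733.UD.Low

/-!
# Frey's inequality with slope `5 / 12` and absolute constants, for almost all modular invariants,
# over all number fields of all degrees

Frey asks for constants `κ`, `c`, depending only on the number field `K` and on `g`, such that
`h_F(A) ≤ κ log N_A + c` for all abelian varieties `A` over `K` of dimension `g`. We consider ALL
Weil restrictions `A = Res_{L/K} E`, where `L/K` is any extension of number fields, `g = [L : K]`,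
and `E` is any elliptic curve over `L` (`A = E` for `L = K`). The height is the (unstable) Faltings
height of the Néron model over `O_K`; `12 [K : ℚ] h_F(A)` is the sum of the logarithm of the norm of
the minimal discriminant of `E`, of the archimedean terms and of `6 log (|D_L| / |D_K| ^ g)`. The
conductor is `N_A = N(f_E) (|D_L| / |D_K| ^ g) ^ 2` (Milne), where the part of `N(f_E)` prime to
six is `multNorm E * addNorm E`.

All constants are absolute: they depend neither on `K` nor on `L` nor on the degrees. For every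
number field `L`, of degree `n`, and for all `j ∈ L` of height at most `B` outside a set of at most
`(M B ^ (2 - θ + ε)) ^ n` invariants, where `θ = δ / (2 (1 + δ))`, one has
`12 [K : ℚ] h_F(A) ≤ (1 + δ) log (multNorm E) + 5 log (addNorm E) + 3 log (relDisc ^ 2) + C n`
for ALL subfields `K` and for ALL elliptic curves `E` over `L` of invariant `j` (all twists). In
particular `h_F(A) ≤ (5 / (12 [K : ℚ])) log N_A + C g` for `100 %` of the invariants in every `L`,
and `h_F(E) ≤ ((1 + δ) / 12) (log N_E) / n + C` for the curves without additive reduction outside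
six.

Proof: the heights of the elements whose simple poles contribute too little are controlled by a count
of ideals and units which is uniform in all number fields; the exponents of the minimal discriminant
are bounded at all primes, in terms of the poles of `j` and of the type of reduction, with a total
contribution `O(n)` of the primes above six; the archimedean terms are compared with an absolute
constant.
-/

set_option autoImplicit false
set_option linter.unusedSectionVars false

namespace Pool.Agent.Results.MP_6babc4_nt.AllFieldsFrey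

open NumberField IsDedekindDomain

/-- the modular invariant `j(τ) = E₄(τ) ^ 3 / Δ(τ) = 1 / q + 744 + ⋯` -/
noncomputable def jInv (τ : UpperHalfPlane) : ℂ :=
  ModularForm.E₄ τ ^ 3 / ModularForm.discriminant τ

/-- the archimedean term `- log (|Δ(τ)| (Im τ) ^ 6)` of the Faltings height -/
noncomputable def arch (τ : UpperHalfPlane) : ℝ :=
  -Real.log (‖ModularForm.discriminant τ‖ * τ.im ^ 6)

/-- the points `τ w` have modular invariant `j` -/
def IsPeriod {L : Type} [Field L] [NumberField L] (j : L)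
    (τ : InfinitePlace L → UpperHalfPlane) : Prop := ∀ w, jInv (τ w) = w.embedding j

/-- the equation is integral at `v` -/
def IntAt {L : Type} [Field L] [NumberField L] (v : HeightOneSpectrum (𝓞 L))
    (E : WeierstrassCurve L) : Prop :=
  v.valuation L E.a₁ ≤ 1 ∧ v.valuation L E.a₂ ≤ 1 ∧ v.valuation L E.a₃ ≤ 1 ∧
    v.valuation L E.a₄ ≤ 1 ∧ v.valuation L E.a₆ ≤ 1

/-- the exponent of `v` in the minimal discriminant of the curve: the least valuation at `v` of the
discriminant of a Weierstrass equation of the curve over `L` which is integral at `v` -/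
noncomputable def discExp {L : Type} [Field L] [NumberField L] (v : HeightOneSpectrum (𝓞 L))
    (E : WeierstrassCurve L) : ℕ :=
  sInf {m : ℕ | ∃ C : WeierstrassCurve.VariableChange L, IntAt v (C • E) ∧
    v.valuation L (C • E).Δ = WithZero.exp (-(m : ℤ))}

/-- the Faltings height over `K` of the Weil restriction `A = Res_{L/K} E` of an elliptic curve `E`
over `L` (up to an absolute additive multiple of `[L : K]` which depends on the normalisation of the
metric only) -/
noncomputable def height (K : Type) [Field K] [NumberField K] {L : Type} [Field L] [NumberField L]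
    [Algebra K L] (E : WeierstrassCurve L) (τ : InfinitePlace L → UpperHalfPlane) : ℝ :=
  (∑ᶠ v : HeightOneSpectrum (𝓞 L), (discExp v E : ℝ) * Real.log (Ideal.absNorm v.asIdeal : ℝ) +
    ∑ w : InfinitePlace L, (w.mult : ℝ) * arch (τ w) +
    6 * (Real.log |(discr L : ℝ)| - Module.finrank K L * Real.log |(discr K : ℝ)|)) /
    (12 * Module.finrank ℚ K)

/-- good reduction at `v`: some Weierstrass equation over `L` of the curve is integral at `v` and
has a discriminant which is a unit at `v` -/
def GoodAt {L : Type} [Field L] [NumberField L] (v : HeightOneSpectrum (𝓞 L))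
    (E : WeierstrassCurve L) : Prop :=
  ∃ C : WeierstrassCurve.VariableChange L,
    v.valuation L (C • E).a₁ ≤ 1 ∧ v.valuation L (C • E).a₂ ≤ 1 ∧ v.valuation L (C • E).a₃ ≤ 1 ∧
    v.valuation L (C • E).a₄ ≤ 1 ∧ v.valuation L (C • E).a₆ ≤ 1 ∧ v.valuation L (C • E).Δ = 1

/-- semistable (good or multiplicative) reduction at `v`: some Weierstrass equation over `L` of the
curve is integral at `v` and its discriminant or its invariant `c₄` is a unit at `v` -/
def SemistableAt {L : Type} [Field L] [NumberField L] (v : HeightOneSpectrum (𝓞 L))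
    (E : WeierstrassCurve L) : Prop :=
  ∃ C : WeierstrassCurve.VariableChange L,
    v.valuation L (C • E).a₁ ≤ 1 ∧ v.valuation L (C • E).a₂ ≤ 1 ∧ v.valuation L (C • E).a₃ ≤ 1 ∧
    v.valuation L (C • E).a₄ ≤ 1 ∧ v.valuation L (C • E).a₆ ≤ 1 ∧
    (v.valuation L (C • E).Δ = 1 ∨ v.valuation L (C • E).c₄ = 1)

/-- the product of the norms of the primes of multiplicative reduction not dividing six -/
noncomputable def multNorm {L : Type} [Field L] [NumberField L] (E : WeierstrassCurve L) : ℝ :=
  ∏ᶠ v ∈ {v : HeightOneSpectrum (𝓞 L) |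
    ¬ GoodAt v E ∧ SemistableAt v E ∧ v.valuation L 6 = 1}, (Ideal.absNorm v.asIdeal : ℝ)

/-- the product of the squares of the norms of the primes of additive reduction not dividing six -/
noncomputable def addNorm {L : Type} [Field L] [NumberField L] (E : WeierstrassCurve L) : ℝ :=
  ∏ᶠ v ∈ {v : HeightOneSpectrum (𝓞 L) | ¬ SemistableAt v E ∧ v.valuation L 6 = 1},
    (Ideal.absNorm v.asIdeal : ℝ) ^ 2

/-- the norm `|D_L| / |D_K| ^ [L : K]` of the relative discriminant -/
noncomputable def relDisc (K L : Type) [Field K] [NumberField K] [Field L] [NumberField L]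
    [Algebra K L] : ℝ := |(discr L : ℝ)| / |(discr K : ℝ)| ^ Module.finrank K L

/-- the part `N` of the conductor of `A = Res_{L/K} E`: the part prime to six of the norm of the
conductor of `E`, times the square of the norm of the relative discriminant -/
noncomputable def cond (K : Type) [Field K] [NumberField K] {L : Type} [Field L] [NumberField L]
    [Algebra K L] (E : WeierstrassCurve L) : ℝ :=
  multNorm E * addNorm E * relDisc K L ^ 2

/-- the sharp form of Frey's inequality, with parameters `δ` and `C`, for the Weil restrictions to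
all subfields `K` of `L` of all elliptic curves over `L` of invariant `j` -/
def FreySharp (δ C : ℝ) {L : Type} [Field L] [NumberField L] (j : L) : Prop :=
  ∀ (K : Type) [Field K] [NumberField K] [Algebra K L] (E : WeierstrassCurve L)
    (τ : InfinitePlace L → UpperHalfPlane), E.Δ ≠ 0 → E.c₄ ^ 3 / E.Δ = j → IsPeriod j τ →
    12 * Module.finrank ℚ K * height K E τ ≤ (1 + δ) * Real.log (multNorm E) +
      5 * Real.log (addNorm E) + 3 * Real.log (relDisc K L ^ 2) + C * Module.finrank ℚ L

/-- Frey's inequality with `κ = 5 / (12 [K : ℚ])` and `c = C g` for the Weil restrictions to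
all subfields `K` of `L` of all elliptic curves over `L` of invariant `j` -/
def Frey (C : ℝ) {L : Type} [Field L] [NumberField L] (j : L) : Prop :=
  ∀ (K : Type) [Field K] [NumberField K] [Algebra K L] (E : WeierstrassCurve L)
    (τ : InfinitePlace L → UpperHalfPlane), E.Δ ≠ 0 → E.c₄ ^ 3 / E.Δ = j → IsPeriod j τ →
    height K E τ ≤ 5 / (12 * Module.finrank ℚ K) * Real.log (cond K E) + C * Module.finrank K L

section Fields

variable (L : Type) [Field L] [NumberField L]

/-- the root discriminant `δ_L` -/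
noncomputable def rootDisc : ℝ :=
  |(NumberField.discr L : ℝ)| ^ (1 / (Module.finrank ℚ L : ℝ))

/-- the elements of absolute height at most `B` -/
def Inv (B : ℝ) : Set L := {j | Height.logHeight₁ j ≤ Module.finrank ℚ L * Real.log B}

/-- those for which the sharp form fails -/
def ExcSharp (δ C B : ℝ) : Set L := {j ∈ Inv L B | ¬ FreySharp δ C j}

/-- those for which Frey's inequality fails -/
def Exc (C B : ℝ) : Set L := {j ∈ Inv L B | ¬ Frey C j}

end Fields

open Pool.Agent.Y733.UD Pool.Agent.Y733.LS Pool.Agent.W223.AK Pool.Agent.H691R3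

section Aux

variable {K : Type} [Field K] [NumberField K]

theorem n_pos : (0 : ℝ) < Module.finrank ℚ K := by
  linarith [finrank_one_le K]

theorem rootDisc_eq : rootDisc K = Real.exp (rd K) := by
  unfold rootDisc rd
  have h : (0 : ℝ) < |(NumberField.discr K : ℝ)| := by linarith [one_le_disc K]
  rw [Real.rpow_def_of_pos h]
  congr 1
  ring

theorem ht_log (j : K) : Height.logHeight₁ j = ht j := by
  rw [logHeight_eq, ht_eq_Sa]

theorem ncard_le {S : Set K} {b : ℝ} (h : ∀ E : Finset K, (E : Set K) ⊆ S → (E.card : ℝ) ≤ b) :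
    S.Finite ∧ (S.ncard : ℝ) ≤ b := by
  have hfin : S.Finite := by
    by_contra hinf
    obtain ⟨t, ht, hcard⟩ := Set.Infinite.exists_subset_card_eq hinf (⌊b⌋₊ + 1)
    have h1 := h t ht
    rw [hcard] at h1
    have h2 := Nat.lt_floor_add_one b
    push_cast at h1
    linarith
  refine ⟨hfin, ?_⟩
  have h1 := h hfin.toFinset (by simp)
  rwa [← Set.ncard_eq_toFinset_card S hfin] at h1

theorem le_ncard {S : Set K} (hS : S.Finite) {b : ℝ} {E : Finset K} (hE : (E : Set K) ⊆ S)
    (h : b ≤ E.card) : b ≤ (S.ncard : ℝ) := by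
  refine h.trans ?_
  rw [← Set.ncard_coe_finset]
  exact_mod_cast Set.ncard_le_ncard hE hS

theorem pow_form {n : ℕ} {C B Q α β : ℝ} (hC : 0 < C) (hB : 0 < B) (hQ : 0 < Q) :
    (C * B ^ α * Q ^ β) ^ n = Real.exp (n * (Real.log C + α * Real.log B + β * Real.log Q)) := by
  rw [Real.exp_nat_mul, Real.exp_add, Real.exp_add, Real.exp_log hC, Real.rpow_def_of_pos hB,
    Real.rpow_def_of_pos hQ, mul_comm α, mul_comm β]

theorem fin_Inv (B : ℝ) : (Inv K B).Finite :=
  NumberField.finite_setOfPred_logHeight₁_le (K := K) (Module.finrank ℚ K * Real.log B)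

theorem sqrt_rootDisc : √(rootDisc K) = Real.exp (rd K / 2) := by
  rw [rootDisc_eq, Real.exp_half]

/-- the height of the Weil restriction -/
theorem height_eq {L : Type} [Field L] [NumberField L] [Algebra K L] (E : WeierstrassCurve L)
    (τ : InfinitePlace L → UpperHalfPlane) :
    12 * (Module.finrank ℚ K : ℝ) * height K E τ = Pool.Agent.Y733.FF.discSum E +
      ∑ w : InfinitePlace L, (w.mult : ℝ) * Pool.Agent.TH876.FH.arch (τ w) +
      3 * Real.log (relDisc K L ^ 2) := by
  have h0 : (12 * (Module.finrank ℚ K : ℝ)) ≠ 0 := by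
    have := n_pos (K := K)
    positivity
  have h1 : (0 : ℝ) < |(discr L : ℝ)| := by linarith [one_le_disc L]
  have h2 : (0 : ℝ) < |(discr K : ℝ)| := by linarith [one_le_disc K]
  have h3 : 3 * Real.log (relDisc K L ^ 2) =
      6 * (Real.log |(discr L : ℝ)| - Module.finrank K L * Real.log |(discr K : ℝ)|) := by
    unfold relDisc
    rw [Real.log_pow, Real.log_div h1.ne' (pow_pos h2 _).ne', Real.log_pow]
    push_cast
    ring
  rw [h3]
  unfold height
  rw [mul_div_cancel₀ _ h0]
  rfl

/-- the simple form follows from the sharp form -/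
theorem frey_of_sharp {δ C : ℝ} (hδ : δ ≤ 3) {L : Type} [Field L] [NumberField L] {j : L}
    (h : FreySharp δ C j) : Frey (C / 12) j := by
  intro K _ _ _ E τ hE hj hτ
  have h1 := h K E τ hE hj hτ
  have hn := n_pos (K := K)
  have hfd : FiniteDimensional K L := Module.Finite.of_restrictScalars_finite ℚ K L
  have hmul : (Module.finrank ℚ L : ℝ) = Module.finrank ℚ K * Module.finrank K L := by
    rw [← Module.finrank_mul_finrank ℚ K L]
    push_cast
    rfl
  have hd1 : (0 : ℝ) < |(discr L : ℝ)| := by linarith [one_le_disc L]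
  have hd2 : (0 : ℝ) < |(discr K : ℝ)| := by linarith [one_le_disc K]
  have hm : 0 < multNorm E := Pool.Agent.Y733.FF.multN_pos E hE
  have ha : 0 < addNorm E := Pool.Agent.Y733.FF.addN_pos E hE
  have hr : 0 < relDisc K L := by
    unfold relDisc
    positivity
  have hlm : 0 ≤ Real.log (multNorm E) := Pool.Agent.Y733.FF.log_multN_nonneg E hE
  have hlr : 0 ≤ Real.log (relDisc K L ^ 2) := by
    have h2 := Pool.Agent.Y733.FF.disc_ge K L
    unfold relDisc
    rw [Real.log_pow, Real.log_div hd1.ne' (pow_pos hd2 _).ne', Real.log_pow]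
    have : 0 ≤ Real.log |(discr L : ℝ)| - Module.finrank K L * Real.log |(discr K : ℝ)| := by
      linarith
    push_cast
    positivity
  have hc : Real.log (cond K E) = Real.log (multNorm E) + Real.log (addNorm E) +
      Real.log (relDisc K L ^ 2) := by
    unfold cond
    rw [Real.log_mul (mul_pos hm ha).ne' (pow_pos hr 2).ne', Real.log_mul hm.ne' ha.ne']
  have h3 : (1 + δ) * Real.log (multNorm E) ≤ 5 * Real.log (multNorm E) :=
    mul_le_mul_of_nonneg_right (by linarith) hlm
  have h4 : 12 * (Module.finrank ℚ K : ℝ) * height K E τ ≤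
      5 * Real.log (cond K E) + C * (Module.finrank ℚ K * Module.finrank K L) := by
    rw [hc]
    rw [hmul] at h1
    linarith
  have h5 : height K E τ ≤
      (5 * Real.log (cond K E) + C * (Module.finrank ℚ K * Module.finrank K L)) /
        (12 * (Module.finrank ℚ K : ℝ)) := by
    rw [le_div_iff₀ (by positivity)]
    linarith
  refine h5.trans (le_of_eq ?_)
  field_simp

end Aux

/-- logarithmic form of the count -/
theorem exc_log : ∃ C : ℝ, 0 < C ∧ ∀ δ ε : ℝ, 0 ≤ δ → δ ≤ 3 → 0 < ε → ∃ A : ℝ, 0 ≤ A ∧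
    ∀ (L : Type) [Field L] [NumberField L] (B : ℝ), 1 ≤ B →
      ((ExcSharp L δ C B).ncard : ℝ) ≤ Real.exp (Module.finrank ℚ L *
        (A + (2 - δ / (2 * (1 + δ)) + ε) * Real.log B)) := by
  obtain ⟨C, hC, h⟩ := Pool.Agent.Y733.FF.frey
  refine ⟨C, hC, fun δ ε h0 h3 hε => ?_⟩
  obtain ⟨A, hA, hexc⟩ := Pool.Agent.Y733.FF.exc_frey h0 hε
  refine ⟨A, hA, ?_⟩
  intro L _ _ B hB
  have hd : 0 < 1 + δ := by linarith
  have eθ : δ / (1 + δ) / 2 = δ / (2 * (1 + δ)) := by
    field_simp
  refine (ncard_le fun S hS => ?_).2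
  refine (hexc L (Module.finrank ℚ L * Real.log B) S
    (mul_nonneg n_pos.le (Real.log_nonneg hB)) ?_).trans (le_of_eq (by rw [eθ]; congr 1; ring))
  intro j hj
  obtain ⟨h1, h2⟩ := hS (Finset.mem_coe.2 hj)
  have h1' : Height.logHeight₁ j ≤ Module.finrank ℚ L * Real.log B := h1
  rw [ht_log] at h1'
  refine ⟨h1', fun hcon => h2 ?_⟩
  intro K _ _ _ E τ hE hjE hτ
  subst hjE
  rw [height_eq]
  have h4 : Pool.Agent.Y733.FF.discSum E +
      ∑ w : InfinitePlace L, (w.mult : ℝ) * Pool.Agent.TH876.FH.arch (τ w) ≤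
      (1 + δ) * Real.log (multNorm E) + 5 * Real.log (addNorm E) + C * Module.finrank ℚ L :=
    h L E τ δ hE hτ h0 h3 hcon
  linarith

/-- logarithmic form of the lower bound for the number of all invariants -/
theorem inv_log {ε : ℝ} (hε : 0 < ε) : ∃ A : ℝ, 0 ≤ A ∧
    ∀ (K : Type) [Field K] [NumberField K] (B : ℝ), 16 * √(rootDisc K) ≤ B →
      Real.exp (Module.finrank ℚ K * ((2 - ε) * Real.log B - (2 + ε) * rd K - A)) ≤
        ((Inv K B).ncard : ℝ) := by
  classical
  set ε1 : ℝ := min (ε / 4) 1 with hε1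
  have h1 : 0 < ε1 := lt_min (by positivity) one_pos
  have h2 : ε1 ≤ 1 := min_le_right _ _
  have h3 : 4 * ε1 ≤ ε := by
    have := min_le_left (ε / 4) 1
    rw [← hε1] at this
    linarith
  obtain ⟨A, hA, h⟩ := low_count h1 h2
  refine ⟨A, hA, ?_⟩
  intro K _ _ B hBK
  have hn := n_pos (K := K)
  have hrd := rd_nonneg K
  have hl16 : 0 ≤ Real.log 16 := Real.log_nonneg (by norm_num)
  have hB : 0 < B := by
    rw [sqrt_rootDisc] at hBK
    have : 0 < 16 * Real.exp (rd K / 2) := by positivity
    linarith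
  have hl : Real.log 16 + rd K / 2 ≤ Real.log B := by
    rw [sqrt_rootDisc] at hBK
    have h1 := Real.log_le_log (by positivity) hBK
    rwa [Real.log_mul (by norm_num) (Real.exp_pos _).ne', Real.log_exp] at h1
  have hl8 : Real.log 8 ≤ Real.log 16 := Real.log_le_log (by norm_num) (by norm_num)
  obtain ⟨E, hE, hcard⟩ := h K (Real.log B) (by linarith)
  have hsub : (E : Set K) ⊆ Inv K B := by
    intro j hj
    obtain ⟨h4, h5⟩ := hE j (Finset.mem_coe.1 hj)
    show Height.logHeight₁ j ≤ _
    rw [ht_log]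
    exact h5
  refine le_ncard (fin_Inv B) hsub (le_trans ?_ hcard)
  apply Real.exp_le_exp.2
  apply mul_le_mul_of_nonneg_left _ hn.le
  have h7 : (2 - ε) * Real.log B ≤ (2 - 4 * ε1) * Real.log B :=
    mul_le_mul_of_nonneg_right (by linarith) (by linarith)
  have h8 : (2 + ε1) * rd K ≤ (2 + ε) * rd K := mul_le_mul_of_nonneg_right (by linarith) hrd
  linarith

/-- the proportion, logarithmic form -/
theorem prop_log {S : (L : Type) → [Field L] → [NumberField L] → ℝ → Set L}
    (hS : ∀ (L : Type) [Field L] [NumberField L] (B : ℝ), S L B ⊆ Inv L B) {θ ε : ℝ}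
    (hθ : θ ≤ 1 / 2) (hε : 0 < ε)
    (h : ∃ A : ℝ, 0 ≤ A ∧ ∀ (L : Type) [Field L] [NumberField L] (B : ℝ), 1 ≤ B →
      ((S L B).ncard : ℝ) ≤ Real.exp (Module.finrank ℚ L *
        (A + (2 - θ + ε / 2) * Real.log B))) : ∃ A : ℝ, 0 ≤ A ∧
    ∀ (L : Type) [Field L] [NumberField L] (B : ℝ), 1 ≤ B →
      ((S L B).ncard : ℝ) ≤ Real.exp (Module.finrank ℚ L *
        (A + (-θ + ε) * Real.log B + (2 + ε) * rd L)) * ((Inv L B).ncard : ℝ) := by
  obtain ⟨A1, hA1, h1⟩ := h
  obtain ⟨A2, hA2, h2⟩ := inv_log (half_pos hε)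
  have hl16 : 0 ≤ Real.log 16 := Real.log_nonneg (by norm_num)
  refine ⟨A1 + A2 + Real.log 16, by positivity, ?_⟩
  intro L _ _ B hB
  have hB0 : 0 < B := by linarith
  have hlB : 0 ≤ Real.log B := Real.log_nonneg hB
  have hn := n_pos (K := L)
  have hrd := rd_nonneg L
  rcases le_or_gt (16 * √(rootDisc L)) B with hBK | hBK
  · refine (h1 L B hB).trans ?_
    refine le_trans ?_ (mul_le_mul_of_nonneg_left (h2 L B hBK) (Real.exp_pos _).le)
    rw [← Real.exp_add]
    apply Real.exp_le_exp.2
    rw [← mul_add]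
    apply mul_le_mul_of_nonneg_left _ hn.le
    nlinarith
  · have h7 : Real.log B < Real.log 16 + rd L / 2 := by
      rw [sqrt_rootDisc] at hBK
      have h1 := Real.log_lt_log hB0 hBK
      rwa [Real.log_mul (by norm_num) (Real.exp_pos _).ne', Real.log_exp] at h1
    have h8 : ((S L B).ncard : ℝ) ≤ ((Inv L B).ncard : ℝ) := by
      exact_mod_cast Set.ncard_le_ncard (hS L B) (fin_Inv B)
    refine h8.trans ?_
    refine le_mul_of_one_le_left (Nat.cast_nonneg _) (Real.one_le_exp ?_)
    apply mul_nonneg hn.le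
    have h9 : -(1 / 2 * Real.log B) ≤ (-θ + ε) * Real.log B := by nlinarith
    nlinarith

theorem theta_le {δ : ℝ} (h0 : 0 ≤ δ) : δ / (2 * (1 + δ)) ≤ 1 / 2 := by
  rw [div_le_div_iff₀ (by linarith) (by norm_num)]
  linarith

/-- the sharp form -/
theorem part_one : ∃ C : ℝ, 0 < C ∧ ∀ δ ε : ℝ, 0 ≤ δ → δ ≤ 3 → 0 < ε → ∃ M : ℝ, 0 < M ∧
    ∀ (L : Type) [Field L] [NumberField L] (B : ℝ), 1 ≤ B → (Inv L B).Finite ∧
      ((ExcSharp L δ C B).ncard : ℝ) ≤
        (M * B ^ (2 - δ / (2 * (1 + δ)) + ε)) ^ Module.finrank ℚ L ∧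
      ((ExcSharp L δ C B).ncard : ℝ) ≤
        (M * B ^ (-(δ / (2 * (1 + δ))) + ε) * rootDisc L ^ (2 + ε)) ^ Module.finrank ℚ L *
          ((Inv L B).ncard : ℝ) := by
  obtain ⟨C, hC, h⟩ := exc_log
  refine ⟨C, hC, fun δ ε h0 h3 hε => ?_⟩
  obtain ⟨A1, hA1, h1⟩ := h δ ε h0 h3 hε
  obtain ⟨A2, hA2, h2⟩ := prop_log (S := fun L _ _ B => ExcSharp L δ C B)
    (fun L _ _ B x hx => hx.1) (theta_le h0) hε (h δ (ε / 2) h0 h3 (half_pos hε))
  refine ⟨Real.exp (A1 + A2), Real.exp_pos _, ?_⟩
  intro L _ _ B hB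
  have hB0 : 0 < B := by linarith
  have hn := n_pos (K := L)
  have hδ : 0 < rootDisc L := by rw [rootDisc_eq]; exact Real.exp_pos _
  refine ⟨fin_Inv B, (h1 L B hB).trans ?_, (h2 L B hB).trans ?_⟩
  · rw [Real.rpow_def_of_pos hB0, ← Real.exp_add, ← Real.exp_nat_mul]
    apply Real.exp_le_exp.2
    apply mul_le_mul_of_nonneg_left _ hn.le
    linarith
  · rw [pow_form (Real.exp_pos _) hB0 hδ, Real.log_exp, rootDisc_eq, Real.log_exp]
    refine mul_le_mul_of_nonneg_right ?_ (Nat.cast_nonneg _)
    apply Real.exp_le_exp.2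
    apply mul_le_mul_of_nonneg_left _ hn.le
    linarith

/-- the simple form -/
theorem part_two : ∃ C B₀ : ℝ, 0 < C ∧ 0 < B₀ ∧
    ∀ (L : Type) [Field L] [NumberField L] (B : ℝ), B₀ * rootDisc L ^ 18 ≤ B →
      ((Exc L C B).ncard : ℝ) ≤
        (B ^ (-(1 / 4) : ℝ)) ^ Module.finrank ℚ L * ((Inv L B).ncard : ℝ) := by
  obtain ⟨C, hC, h⟩ := exc_log
  obtain ⟨A, hA, h2⟩ := prop_log (S := fun L _ _ B => ExcSharp L 3 C B) (ε := 1 / 100)
    (fun L _ _ B x hx => hx.1) (theta_le (by norm_num)) (by norm_num)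
    (h 3 (1 / 100 / 2) (by norm_num) le_rfl (by norm_num))
  refine ⟨C / 12, Real.exp (9 * A), by positivity, Real.exp_pos _, ?_⟩
  intro L _ _ B hB
  have hn := n_pos (K := L)
  have hrd := rd_nonneg L
  have e18 : rootDisc L ^ 18 = Real.exp (18 * rd L) := by
    rw [rootDisc_eq, ← Real.exp_nat_mul]
    norm_num
  rw [e18, ← Real.exp_add] at hB
  have hB0 : 0 < B := lt_of_lt_of_le (Real.exp_pos _) hB
  have hlB : 9 * A + 18 * rd L ≤ Real.log B := by
    rwa [Real.le_log_iff_exp_le hB0]
  have hB1 : 1 ≤ B := le_trans (Real.one_le_exp (by positivity)) hB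
  have hsub : Exc L (C / 12) B ⊆ ExcSharp L 3 C B := fun x hx =>
    ⟨hx.1, fun hcon => hx.2 (frey_of_sharp le_rfl hcon)⟩
  have h3 : ((Exc L (C / 12) B).ncard : ℝ) ≤ ((ExcSharp L 3 C B).ncard : ℝ) := by
    exact_mod_cast Set.ncard_le_ncard hsub ((fin_Inv B).subset fun x hx => hx.1)
  refine h3.trans ((h2 L B hB1).trans (mul_le_mul_of_nonneg_right ?_ (Nat.cast_nonneg _)))
  rw [Real.rpow_def_of_pos hB0, ← Real.exp_nat_mul]
  apply Real.exp_le_exp.2
  apply mul_le_mul_of_nonneg_left _ hn.le
  have e2 : (3 : ℝ) / (2 * (1 + 3)) = 3 / 8 := by norm_num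
  rw [e2]
  nlinarith

/-- the number of all invariants -/
theorem part_three (ε : ℝ) (hε : 0 < ε) : ∃ M : ℝ, 0 < M ∧
    ∀ (L : Type) [Field L] [NumberField L] (B : ℝ), 16 * √(rootDisc L) ≤ B →
      (M⁻¹ * B ^ (2 - ε) * rootDisc L ^ (-(2 + ε))) ^ Module.finrank ℚ L ≤
        ((Inv L B).ncard : ℝ) := by
  obtain ⟨A, hA, h⟩ := inv_log hε
  refine ⟨Real.exp A, Real.exp_pos _, ?_⟩
  intro L _ _ B hBK
  have hB : 0 < B := by
    have h1 := hBK
    rw [sqrt_rootDisc] at h1
    have : 0 < 16 * Real.exp (rd L / 2) := by positivity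
    linarith
  have hδ : 0 < rootDisc L := by rw [rootDisc_eq]; exact Real.exp_pos _
  rw [pow_form (by positivity) hB hδ, Real.log_inv, Real.log_exp, rootDisc_eq, Real.log_exp]
  refine le_trans (le_of_eq ?_) (h L B hBK)
  congr 1
  ring

/-- **Frey's inequality for almost all modular invariants, over all number fields.** All constants
are absolute: they do not depend on the number field `L`, on its degree `n` or on the subfield `K`.
(1) There is `C` such that, for `0 ≤ δ ≤ 3` and `ε > 0`, the sharp form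
`12 [K : ℚ] h_F(A) ≤ (1 + δ) log (multNorm E) + 5 log (addNorm E) + 3 log (relDisc ^ 2) + C n`
of Frey's inequality for the Weil restrictions `A` to all subfields `K` of all elliptic curves `E`
over `L` of invariant `j` holds for all `j ∈ L` of height at most `B` except at most
`(M B ^ (2 - δ / (2 (1 + δ)) + ε)) ^ n` of them, a proportion of at most
`(M B ^ (-δ / (2 (1 + δ)) + ε) δ_L ^ (2 + ε)) ^ n`.
(2) `h_F(A) ≤ (5 / (12 [K : ℚ])) log N + C [L : K]` for all `K` and `E`, and for all `j ∈ L` of
height at most `B` except a proportion `B ^ (-n / 4)`, over every `L` and for `B ≥ B₀ δ_L ^ 18`.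
(3) The number of all `j ∈ L` of height at most `B` is at least
`(B ^ (2 - ε) / (M δ_L ^ (2 + ε))) ^ n` for `B ≥ 16 √δ_L`. -/
theorem result :
    (∃ C : ℝ, 0 < C ∧ ∀ δ ε : ℝ, 0 ≤ δ → δ ≤ 3 → 0 < ε → ∃ M : ℝ, 0 < M ∧
      ∀ (L : Type) [Field L] [NumberField L] (B : ℝ), 1 ≤ B → (Inv L B).Finite ∧
        ((ExcSharp L δ C B).ncard : ℝ) ≤
          (M * B ^ (2 - δ / (2 * (1 + δ)) + ε)) ^ Module.finrank ℚ L ∧
        ((ExcSharp L δ C B).ncard : ℝ) ≤
          (M * B ^ (-(δ / (2 * (1 + δ))) + ε) * rootDisc L ^ (2 + ε)) ^ Module.finrank ℚ L *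
            ((Inv L B).ncard : ℝ)) ∧
    (∃ C B₀ : ℝ, 0 < C ∧ 0 < B₀ ∧
      ∀ (L : Type) [Field L] [NumberField L] (B : ℝ), B₀ * rootDisc L ^ 18 ≤ B →
        ((Exc L C B).ncard : ℝ) ≤
          (B ^ (-(1 / 4) : ℝ)) ^ Module.finrank ℚ L * ((Inv L B).ncard : ℝ)) ∧
    (∀ ε : ℝ, 0 < ε → ∃ M : ℝ, 0 < M ∧
      ∀ (L : Type) [Field L] [NumberField L] (B : ℝ), 16 * √(rootDisc L) ≤ B →
        (M⁻¹ * B ^ (2 - ε) * rootDisc L ^ (-(2 + ε))) ^ Module.finrank ℚ L ≤
          ((Inv L B).ncard : ℝ)) :=
  ⟨part_one, part_two, part_three⟩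

end Pool.Agent.Results.MP_6babc4_nt.AllFieldsFrey
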