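import Mathlib
import Pool.Agent.Y729.AH.TwMain

/-!
# The Faltings height against the conductor for elliptic curves with full two-torsion, ordered by the
conductor: the exact slope `1 / 6`

Let `L / K` be an extension of number fields. Frey asks for constants `κ`, `c` with
`h_F(A) ≤ κ log N_A + c` for all abelian varieties `A` over `K` of dimension `g`. We consider the
Weil restrictions `A = Res_{L/K} E` (so `g = [L : K]`, and `A = E` for `L = K`) of ALL elliptic curves
`E` over `L` with full `L`-rational two-torsion, up to isomorphism over `L`, including all quadratic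
twists, ordered by their conductor, with no restriction on their heights.

The height is the (unstable) Faltings height over `K`: the Néron model of `A` is the Weil restriction
of the one of `E`, so that `[K : ℚ] h_F(A) = [L : ℚ] h_F(E / L) + (1 / 2) log (|D_L| / |D_K| ^ g)`, and
`h_F(E / L)` is given by Silverman's formula in terms of the minimal discriminant and the periods.
The conductor is `N_A = N(f_E) (|D_L| / |D_K| ^ g) ^ 2` (Milne). At the primes not above two the
exponent of the conductor of `E` is `1` for multiplicative and `2` for additive reduction (the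
inertia acts through a tame quotient as the two-torsion is rational); the part above two is bounded in
terms of `L`. So `N_A` is `cond E` up to a factor bounded above and below in terms of `K` and `L`.

We show that there are `X ^ (2 / 3 + o(1))` such curves with `cond E ≤ X`, that for `κ > 1 / 6` all
but a proportion `X ^ (-ν)` of them satisfy `[K : ℚ] h_F(A) < κ log (cond E) + c`, and that for
`κ < 1 / 6` all but FINITELY many satisfy `[K : ℚ] h_F(A) > κ log (cond E) + c`.

The proof combines
* the theorem of this project on almost all points of the line `x + y + z = 0` (of all heights,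
  ordered by the radical), applied to the Legendre parameters;
* the exact dependence of the minimal discriminant and of the conductor on the twist;
* a count of the twists with given parameter and given additive primes (elements of `L` modulo
  squares), and of the additive primes.
-/

set_option autoImplicit false

namespace Pool.Agent.Results.MP_6babc4_nt.ConductorOrderedSlope

open NumberField IsDedekindDomain

/-- the modular invariant `j(τ) = E₄(τ) ^ 3 / Δ(τ) = 1 / q + 744 + ⋯` -/
noncomputable def jInv (τ : UpperHalfPlane) : ℂ :=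
  ModularForm.E₄ τ ^ 3 / ModularForm.discriminant τ

/-- the archimedean term `- log (|Δ(τ)| (Im τ) ^ 6)` of the Faltings height -/
noncomputable def arch (τ : UpperHalfPlane) : ℝ :=
  -Real.log (‖ModularForm.discriminant τ‖ * τ.im ^ 6)

/-- the points `τ w` have modular invariant `j` -/
def IsPeriod {K : Type} [Field K] [NumberField K] (j : K)
    (τ : InfinitePlace K → UpperHalfPlane) : Prop := ∀ w, jInv (τ w) = w.embedding j

/-- the equation is integral at `v` -/
def IntAt {K : Type} [Field K] [NumberField K] (v : HeightOneSpectrum (𝓞 K))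
    (E : WeierstrassCurve K) : Prop :=
  v.valuation K E.a₁ ≤ 1 ∧ v.valuation K E.a₂ ≤ 1 ∧ v.valuation K E.a₃ ≤ 1 ∧
    v.valuation K E.a₄ ≤ 1 ∧ v.valuation K E.a₆ ≤ 1

/-- the exponent of `v` in the minimal discriminant of the curve: the least valuation at `v` of the
discriminant of a Weierstrass equation of the curve over `K` which is integral at `v` -/
noncomputable def discExp {K : Type} [Field K] [NumberField K] (v : HeightOneSpectrum (𝓞 K))
    (E : WeierstrassCurve K) : ℕ :=
  sInf {m : ℕ | ∃ C : WeierstrassCurve.VariableChange K, IntAt v (C • E) ∧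
    v.valuation K (C • E).Δ = WithZero.exp (-(m : ℤ))}

/-- the Faltings height over `K` of the Weil restriction `A = Res_{L/K} E` of an elliptic curve `E`
over `L` (up to an additive constant which depends on the normalisation of the metric only):
`12 [K : ℚ] h_F(A)` is the sum of the logarithm of the norm of the minimal discriminant of `E`, of
the archimedean terms, and of `6 log (|D_L| / |D_K| ^ [L : K])` -/
noncomputable def height (K : Type) [Field K] [NumberField K] {L : Type} [Field L] [NumberField L]
    [Algebra K L] (E : WeierstrassCurve L) (τ : InfinitePlace L → UpperHalfPlane) : ℝ :=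
  (∑ᶠ v : HeightOneSpectrum (𝓞 L), (discExp v E : ℝ) * Real.log (Ideal.absNorm v.asIdeal : ℝ) +
    ∑ w : InfinitePlace L, (w.mult : ℝ) * arch (τ w) +
    6 * (Real.log |(discr L : ℝ)| - Module.finrank K L * Real.log |(discr K : ℝ)|)) /
    (12 * Module.finrank ℚ K)

/-- full rational two-torsion: the polynomial of the first coordinates of the points of order two
has three roots -/
def FullTwo {K : Type} [Field K] (E : WeierstrassCurve K) : Prop :=
  ∃ e : Fin 3 → K, Function.Injective e ∧
    ∀ i, 4 * e i ^ 3 + E.b₂ * e i ^ 2 + 2 * E.b₄ * e i + E.b₆ = 0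

/-- good reduction at `v`: some Weierstrass equation over `K` of the curve is integral at `v` and
has a discriminant which is a unit at `v` -/
def GoodAt {K : Type} [Field K] [NumberField K] (v : HeightOneSpectrum (𝓞 K))
    (E : WeierstrassCurve K) : Prop :=
  ∃ C : WeierstrassCurve.VariableChange K,
    v.valuation K (C • E).a₁ ≤ 1 ∧ v.valuation K (C • E).a₂ ≤ 1 ∧ v.valuation K (C • E).a₃ ≤ 1 ∧
    v.valuation K (C • E).a₄ ≤ 1 ∧ v.valuation K (C • E).a₆ ≤ 1 ∧ v.valuation K (C • E).Δ = 1

/-- semistable (good or multiplicative) reduction at `v`: some Weierstrass equation over `K` of the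
curve is integral at `v` and its discriminant or its invariant `c₄` is a unit at `v` -/
def SemistableAt {K : Type} [Field K] [NumberField K] (v : HeightOneSpectrum (𝓞 K))
    (E : WeierstrassCurve K) : Prop :=
  ∃ C : WeierstrassCurve.VariableChange K,
    v.valuation K (C • E).a₁ ≤ 1 ∧ v.valuation K (C • E).a₂ ≤ 1 ∧ v.valuation K (C • E).a₃ ≤ 1 ∧
    v.valuation K (C • E).a₄ ≤ 1 ∧ v.valuation K (C • E).a₆ ≤ 1 ∧
    (v.valuation K (C • E).Δ = 1 ∨ v.valuation K (C • E).c₄ = 1)

/-- the part prime to two of the norm of the conductor: the product over the primes `v` not above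
two of `N(v)` for multiplicative and `N(v) ^ 2` for additive reduction -/
noncomputable def cond {K : Type} [Field K] [NumberField K] (E : WeierstrassCurve K) : ℝ :=
  (∏ᶠ v ∈ {v : HeightOneSpectrum (𝓞 K) | ¬ GoodAt v E ∧ v.valuation K 2 = 1},
    (Ideal.absNorm v.asIdeal : ℝ)) *
  ∏ᶠ v ∈ {v : HeightOneSpectrum (𝓞 K) | ¬ SemistableAt v E ∧ v.valuation K 2 = 1},
    (Ideal.absNorm v.asIdeal : ℝ)

/-- the Weierstrass curves over `K` up to isomorphism over `K` (changes of variables) -/
abbrev IsoClass (K : Type) [Field K] : Type :=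
  Quotient (MulAction.orbitRel (WeierstrassCurve.VariableChange K) (WeierstrassCurve K))

/-- the isomorphism classes of the elliptic curves over `L` with full rational two-torsion and
conductor (outside two) at most `X` -/
def Curves (L : Type) [Field L] [NumberField L] (X : ℝ) : Set (IsoClass L) :=
  {q | ∃ E : WeierstrassCurve L, Quotient.mk'' E = q ∧ E.Δ ≠ 0 ∧ FullTwo E ∧ cond E ≤ X}

/-- those with `κ log (cond E) + c ≤ [K : ℚ] h_F(Res_{L/K} E)` -/
def High (K L : Type) [Field K] [NumberField K] [Field L] [NumberField L] [Algebra K L]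
    (κ c X : ℝ) : Set (IsoClass L) :=
  {q | ∃ (E : WeierstrassCurve L) (τ : InfinitePlace L → UpperHalfPlane), Quotient.mk'' E = q ∧
    E.Δ ≠ 0 ∧ FullTwo E ∧ cond E ≤ X ∧ IsPeriod (E.c₄ ^ 3 / E.Δ) τ ∧
    κ * Real.log (cond E) + c ≤ Module.finrank ℚ K * height K E τ}

/-- the classes of all conductors with `[K : ℚ] h_F(Res_{L/K} E) ≤ κ log (cond E) + c` -/
def Low (K L : Type) [Field K] [NumberField K] [Field L] [NumberField L] [Algebra K L]
    (κ c : ℝ) : Set (IsoClass L) :=
  {q | ∃ (E : WeierstrassCurve L) (τ : InfinitePlace L → UpperHalfPlane), Quotient.mk'' E = q ∧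
    E.Δ ≠ 0 ∧ FullTwo E ∧ IsPeriod (E.c₄ ^ 3 / E.Δ) τ ∧
    Module.finrank ℚ K * height K E τ ≤ κ * Real.log (cond E) + c}

/-- **The Faltings height of almost all elliptic curves with full two-torsion, ordered by the
conductor.** (1) There are `X ^ (2 / 3 + o(1))` curves of conductor at most `X`. (2) For every slope
`κ > 1 / 6` and every `c` the proportion of those with `[K : ℚ] h_F(A) ≥ κ log N + c` is at most
`X ^ (-ν)` for some `ν > 0` and all large `X`. (3) For every slope `κ < 1 / 6` and every `c`, only
finitely many curves satisfy `[K : ℚ] h_F(A) ≤ κ log N + c`. -/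
theorem result (K L : Type) [Field K] [NumberField K] [Field L] [NumberField L] [Algebra K L] :
    (∀ δ : ℝ, 0 < δ → ∃ X₀ : ℝ, ∀ X : ℝ, X₀ ≤ X → (Curves L X).Finite ∧
      X ^ (2 / 3 - δ) ≤ ((Curves L X).ncard : ℝ) ∧
      ((Curves L X).ncard : ℝ) ≤ X ^ (2 / 3 + δ)) ∧
    (∀ κ c : ℝ, 1 / 6 < κ → ∃ ν X₀ : ℝ, 0 < ν ∧ ∀ X : ℝ, X₀ ≤ X →
      ((High K L κ c X).ncard : ℝ) ≤ X ^ (-ν) * (Curves L X).ncard) ∧
    (∀ κ c : ℝ, κ < 1 / 6 → (Low K L κ c).Finite) := by
  refine ⟨fun δ hδ => ?_, Pool.Agent.Y729.AH.abv_ratio K L, Pool.Agent.Y729.AH.blw_finite K L⟩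
  obtain ⟨C, hC, h1⟩ := Pool.Agent.Y729.AH.cl2_upper L (δ / 2) (by positivity)
  obtain ⟨X1, hX1, h2⟩ := Pool.Agent.Y729.AH.cl2_lower L δ hδ
  obtain ⟨X2, hX2, h3⟩ := Pool.Agent.Y729.AH.big C (δ / 2) (by positivity)
  refine ⟨max X1 X2, fun X hX => ?_⟩
  have hXX1 : X1 ≤ X := (le_max_left _ _).trans hX
  have hXX2 : X2 ≤ X := (le_max_right _ _).trans hX
  have hX1' : 1 ≤ X := hX1.trans hXX1
  have hX0 : 0 < X := by linarith
  refine ⟨(h1 X hX1').1, h2 X hXX1, (h1 X hX1').2.trans ?_⟩
  calc C * X ^ (2 / 3 + δ / 2) ≤ X ^ (δ / 2) * X ^ (2 / 3 + δ / 2) :=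
        mul_le_mul_of_nonneg_right (h3 X hXX2) (Real.rpow_nonneg hX0.le _)
    _ = _ := by
        rw [← Real.rpow_add hX0]
        congr 1
        ring

end Pool.Agent.Results.MP_6babc4_nt.ConductorOrderedSlope
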