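import Mathlib
import Pool.Agent.Y679.Md.Main
import Pool.Agent.Y679.Fh.Gm

/-!
# The inequality of Frey for all quadratic twists of almost all fibres of a family

`y² = x³ - 27 a(T) x - 54 b(T)` is a family of elliptic curves with `c₄ = a (T)`, `c₆ = b (T)` up to
squares, whose `γ` bad fibres, multiplicative or additive, lie over rational points. The fibres
`(s : t)`, of all heights, are ordered by the product of the primes dividing the form `G (s, t)` of
the bad fibres. For all but a power-saving proportion of the fibres ALL elliptic curves over `ℚ`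
which are quadratic twists of the fibre satisfy `h_F(E) ≤ (1/4 + n/(4γ) + ε) log N_E + C`, and this
slope (at most `1/2 - 1/(2γ) + ε`) cannot be improved for any of these fibres.

The case of the `j`-line: every elliptic curve over `ℚ` whose invariant is outside a power-saving
exceptional set satisfies `h_F(E) ≤ (1/3 + ε) log N_E + C`.
-/

set_option autoImplicit false

namespace Pool.Agent.Results.MP_6babc4_nt.FreyForAllTwists

open Polynomial

/-- `W` is a global minimal Weierstrass equation: `Δ ≠ 0`, and `|Δ|` is smallest among all integral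
Weierstrass equations that are obtained from `W` by a change of variables over `ℚ` -/
def IsGlobalMinimal (W : WeierstrassCurve ℤ) : Prop :=
  W.Δ ≠ 0 ∧ ∀ W' : WeierstrassCurve ℤ,
    (∃ C : WeierstrassCurve.VariableChange ℚ,
      C • W.map (Int.castRingHom ℚ) = W'.map (Int.castRingHom ℚ)) → |W.Δ| ≤ |W'.Δ|

/-- `N₆`, the prime-to-6 part of the conductor of a global minimal equation: the product over the
primes `p ≥ 5` dividing `Δ` of `p` (multiplicative reduction, `p ∤ c₄`) or `p²` (additive,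
`p ∣ c₄`) -/
def conductor6 (W : WeierstrassCurve ℤ) : ℕ :=
  ∏ p ∈ W.Δ.natAbs.primeFactors.filter (fun p => 5 ≤ p), if (p : ℤ) ∣ W.c₄ then p ^ 2 else p

/-- the modular invariant `j(τ) = E₄(τ) ^ 3 / Δ(τ) = 1 / q + 744 + ⋯` -/
noncomputable def jInv (τ : UpperHalfPlane) : ℂ :=
  ModularForm.E₄ τ ^ 3 / ModularForm.discriminant τ

/-- the archimedean term `- log (|Δ(τ)| (Im τ) ^ 6)` of the Faltings height -/
noncomputable def arch (τ : UpperHalfPlane) : ℝ :=
  -Real.log (‖ModularForm.discriminant τ‖ * τ.im ^ 6)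

/-- `W(ℂ)` is isomorphic to `ℂ / (ℤ + ℤ τ)`: `j(τ) = c₄³ / Δ` is the invariant of `W` -/
def IsPeriod (W : WeierstrassCurve ℤ) (τ : UpperHalfPlane) : Prop :=
  jInv τ = (((W.c₄ : ℚ) ^ 3 / W.Δ : ℚ) : ℂ)

/-- The Faltings height over `ℚ` of the elliptic curve with the global minimal equation `W` (up to an
additive constant which depends on the normalisation only): `12 h_F` is the logarithm of the minimal
discriminant plus the archimedean term at a period `τ` of the curve. -/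
noncomputable def faltings (W : WeierstrassCurve ℤ) (τ : UpperHalfPlane) : ℝ :=
  (Real.log (|W.Δ| : ℤ) + arch τ) / 12

/-- the value at `(s, t)` of the binary form `∑ fᵢ Xⁱ Y^(N - i)` of degree `N` of the polynomial
`f = ∑ fᵢ Xⁱ`; it is `t ^ N * f (s / t)` when `t ≠ 0` and `deg f ≤ N` -/
noncomputable def formValue (N : ℕ) (f : ℤ[X]) (s t : ℤ) : ℤ :=
  ∑ i ∈ Finset.range (N + 1), f.coeff i * s ^ i * t ^ (N - i)

/-- A one-parameter family of elliptic curves with `c₄ = a (T)`, `c₆ = b (T)`, all of whose bad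
fibres lie over rational points. The binary forms `A`, `B` of degrees `2n`, `3n` of `a`, `b` have no
common zero of order `≥ 2` on `A` and `≥ 3` on `B`, the fibre at infinity is nonsingular
(`deg (a³ - b²) = 6n`), the `j`-invariant is not constant, and `g` is a squarefree polynomial with
the same irreducible factors as `a³ - b²`; these are linear.

Every elliptic curve over `ℚ(T)` with non-constant `j`-invariant and rational bad fibres has such a
form after a change of the parameter `T` and a quadratic twist. -/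
structure IsSplitFamily (n : ℕ) (a b g : ℤ[X]) : Prop where
  pos : 1 ≤ n
  deg_a : a.natDegree ≤ 2 * n
  deg_b : b.natDegree ≤ 3 * n
  deg_disc : (a ^ 3 - b ^ 2).natDegree = 6 * n
  nonisotrivial : ∀ x y : ℤ, C x * a ^ 3 = C y * b ^ 2 → x = 0 ∧ y = 0
  minimal : ∀ π : ℚ[X], Irreducible π →
    ¬ (π ^ 2 ∣ a.map (Int.castRingHom ℚ) ∧ π ^ 3 ∣ b.map (Int.castRingHom ℚ))
  squarefree : Squarefree (g.map (Int.castRingHom ℚ))
  splits : (g.map (Int.castRingHom ℚ)).Splits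
  dvd : g.map (Int.castRingHom ℚ) ∣ (a ^ 3 - b ^ 2).map (Int.castRingHom ℚ)
  dvd_pow : ∃ k : ℕ, (a ^ 3 - b ^ 2).map (Int.castRingHom ℚ) ∣ (g.map (Int.castRingHom ℚ)) ^ k

/-- the product of the primes dividing `m` -/
def radical (m : ℕ) : ℕ := ∏ p ∈ m.primeFactors, p

/-- the good fibres `(s : t)`, `s` and `t` coprime (each fibre is given by two pairs `±(s, t)`), for
which the product of the primes dividing `G (s, t)` is at most `X`; there is no condition on the
height -/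
def Fibres (g : ℤ[X]) (X : ℝ) : Set (ℤ × ℤ) :=
  {P | IsCoprime P.1 P.2 ∧ formValue g.natDegree g P.1 P.2 ≠ 0 ∧
    (radical (formValue g.natDegree g P.1 P.2).natAbs : ℝ) ≤ X}

/-- `W` is isomorphic over `ℚ` to a quadratic twist of the fibre `(s : t)` -/
def IsTwist (n : ℕ) (a b : ℤ[X]) (P : ℤ × ℤ) (W : WeierstrassCurve ℤ) : Prop :=
  ∃ u : ℚ, (W.c₄ : ℚ) = u ^ 2 * (formValue (2 * n) a P.1 P.2 : ℤ) ∧
    (W.c₆ : ℚ) = u ^ 3 * (formValue (3 * n) b P.1 P.2 : ℤ)

/-- the inequality of Frey with slope `κ` and constant `C` for all quadratic twists of the fibre -/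
def Holds (n : ℕ) (a b : ℤ[X]) (κ C : ℝ) (P : ℤ × ℤ) : Prop :=
  ∀ (W : WeierstrassCurve ℤ) (τ : UpperHalfPlane), IsGlobalMinimal W → IsTwist n a b P W →
    IsPeriod W τ → faltings W τ ≤ κ * Real.log (conductor6 W) + C

/-- the opposite inequality for some quadratic twist of the fibre -/
def Attained (n : ℕ) (a b : ℤ[X]) (κ C : ℝ) (P : ℤ × ℤ) : Prop :=
  ∃ (W : WeierstrassCurve ℤ) (τ : UpperHalfPlane), IsGlobalMinimal W ∧ IsTwist n a b P W ∧
    IsPeriod W τ ∧ κ * Real.log (conductor6 W) - C ≤ faltings W τ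

/-- the invariants `j ≠ 0, 1728` for which the product of the primes at which `j` reduces to `0`,
`1728` or `∞` is at most `X`; there is no condition on the height of `j` -/
def Invariants (X : ℝ) : Set ℚ :=
  {j | j ≠ 0 ∧ j ≠ 1728 ∧
    (radical (j.num.natAbs * (j.num - 1728 * j.den).natAbs * j.den) : ℝ) ≤ X}

/-- the inequality of Frey with slope `κ` and constant `C` for all elliptic curves of invariant
`j` -/
def HoldsJ (κ C : ℝ) (j : ℚ) : Prop :=
  ∀ (W : WeierstrassCurve ℤ) (τ : UpperHalfPlane), IsGlobalMinimal W → (W.c₄ : ℚ) ^ 3 / W.Δ = j →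
    IsPeriod W τ → faltings W τ ≤ κ * Real.log (conductor6 W) + C

/-- the opposite inequality for some elliptic curve of invariant `j` -/
def AttainedJ (κ C : ℝ) (j : ℚ) : Prop :=
  ∃ (W : WeierstrassCurve ℤ) (τ : UpperHalfPlane), IsGlobalMinimal W ∧ (W.c₄ : ℚ) ^ 3 / W.Δ = j ∧
    IsPeriod W τ ∧ κ * Real.log (conductor6 W) - C ≤ faltings W τ

lemma cond_one (W : WeierstrassCurve ℤ) : 1 ≤ conductor6 W := by
  unfold conductor6
  refine Nat.one_le_iff_ne_zero.2 (Finset.prod_ne_zero_iff.2 fun p hp => ?_)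
  have h := (Nat.prime_of_mem_primeFactors (Finset.mem_filter.1 hp).1).pos
  split_ifs
  · positivity
  · positivity

/-- from the inequality for the height of the coefficients -/
lemma up_of {C₀ κ ε : ℝ} (hC₀ : ∀ W : WeierstrassCurve ℤ, W.Δ ≠ 0 → ∀ τ,
    Pool.Agent.Y679.Fh.IsP W τ → 12 * Pool.Agent.Y679.Fh.fh W τ ≤
      Real.log (Pool.Agent.Y679.Fh.cH W) + C₀) (hε : 0 < ε) {W : WeierstrassCurve ℤ}
    {τ : UpperHalfPlane} (hW : IsGlobalMinimal W) (hτ : IsPeriod W τ)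
    (h : Pool.Agent.Y679.Fh.cH W ≤ (conductor6 W : ℝ) ^ (12 * κ + 6 * ε)) :
    faltings W τ ≤ (κ + ε) * Real.log (conductor6 W) + C₀ / 12 := by
  have h1 := hC₀ W hW.1 τ hτ
  have hN : (1 : ℝ) ≤ (conductor6 W : ℝ) := by exact_mod_cast cond_one W
  have hcH : 0 < Pool.Agent.Y679.Fh.cH W := lt_of_lt_of_le one_pos
    ((Pool.Agent.Y679.Fh.m_pos hW.1).trans Pool.Agent.Y679.Fh.m_le)
  have h2 := Real.log_le_log hcH h
  rw [Real.log_rpow (by linarith)] at h2
  have h3 : 0 ≤ Real.log (conductor6 W : ℝ) := Real.log_nonneg hN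
  have h4 : 12 * Pool.Agent.Y679.Fh.fh W τ = 12 * faltings W τ := rfl
  rw [h4] at h1
  nlinarith

lemma low_of {C₁ κ ε : ℝ} (hε : 0 < ε) (hκ : κ ≤ 1 / 2) (hC₁ : ∀ W : WeierstrassCurve ℤ,
    W.Δ ≠ 0 → ∀ τ, Pool.Agent.Y679.Fh.IsP W τ →
      Real.log (Pool.Agent.Y679.Fh.cH W) / (1 + ε) - C₁ ≤ 12 * Pool.Agent.Y679.Fh.fh W τ)
    {W : WeierstrassCurve ℤ} (hW : IsGlobalMinimal W)
    (h : (conductor6 W : ℝ) ^ (12 * κ - 6 * ε) ≤ Pool.Agent.Y679.Fh.cH W) :
    ∃ τ, IsPeriod W τ ∧ (κ - ε) * Real.log (conductor6 W) - C₁ / 12 ≤ faltings W τ := by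
  obtain ⟨τ, hτ⟩ := Pool.Agent.Y679.Fh.ex_P W
  refine ⟨τ, hτ, ?_⟩
  have h1 := hC₁ W hW.1 τ hτ
  have hN : (1 : ℝ) ≤ (conductor6 W : ℝ) := by exact_mod_cast cond_one W
  have h2 := Real.log_le_log (by positivity) h
  rw [Real.log_rpow (by linarith)] at h2
  have h3 : 0 ≤ Real.log (conductor6 W : ℝ) := Real.log_nonneg hN
  have h4 : 12 * Pool.Agent.Y679.Fh.fh W τ = 12 * faltings W τ := rfl
  rw [h4] at h1
  have hd : 0 < 1 + ε := by linarith
  have h5 : (12 * κ - 12 * ε) * Real.log (conductor6 W : ℝ) ≤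
      Real.log (Pool.Agent.Y679.Fh.cH W) / (1 + ε) := by
    rw [le_div_iff₀ hd]
    refine le_trans ?_ h2
    have h6 : (12 * κ - 12 * ε) * (1 + ε) ≤ 12 * κ - 6 * ε := by nlinarith
    calc (12 * κ - 12 * ε) * Real.log (conductor6 W : ℝ) * (1 + ε)
        = (12 * κ - 12 * ε) * (1 + ε) * Real.log (conductor6 W : ℝ) := by ring
      _ ≤ _ := mul_le_mul_of_nonneg_right h6 h3
  linarith

/-- **Theorem.** (1) Let `(a, b, g)` be a one-parameter family with `γ` bad fibres, all of them over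
rational points. Then `γ ≥ n + 2`; the number of the fibres with `rad G (s, t) ≤ X`, of all heights,
is finite and lies between `c X ^ (2/γ)` and `C X ^ (2/γ)`; and for every `ε > 0` there is a
constant such that all but `C X ^ (2/γ - ν)` of them satisfy `Holds` with the slope
`1/4 + n/(4γ) + ε` (`≤ 1/2 - 1/(2γ) + ε`) and `Attained` with the slope `1/4 + n/(4γ) - ε`.
(2) All elliptic curves over `ℚ`: the number of the invariants in `Invariants X` lies between
`c X ^ (2/3)` and `C X ^ (2/3)`, and for every `ε > 0` there is a constant such that all but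
`C X ^ (2/3 - ν)` of them satisfy `HoldsJ` with the slope `1/3 + ε` and `AttainedJ` with the slope
`1/3 - ε`. -/
theorem result :
    (∀ (n : ℕ) (a b g : ℤ[X]), IsSplitFamily n a b g →
      n + 2 ≤ g.natDegree ∧
      (∃ c C X₀ : ℝ, 0 < c ∧ 0 < C ∧ (∀ X : ℝ, 1 ≤ X → (Fibres g X).Finite ∧
          ((Fibres g X).ncard : ℝ) ≤ C * X ^ (2 / (g.natDegree : ℝ))) ∧
        ∀ X : ℝ, X₀ ≤ X → c * X ^ (2 / (g.natDegree : ℝ)) ≤ ((Fibres g X).ncard : ℝ)) ∧
      ∀ ε : ℝ, 0 < ε → ∃ B ν C : ℝ, 0 < ν ∧ 0 < C ∧ ∀ X : ℝ, 1 ≤ X →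
        ({P | P ∈ Fibres g X ∧ ¬ (Holds n a b (1 / 4 + (n : ℝ) / (4 * g.natDegree) + ε) B P ∧
          Attained n a b (1 / 4 + (n : ℝ) / (4 * g.natDegree) - ε) B P)}.ncard : ℝ) ≤
          C * X ^ (2 / (g.natDegree : ℝ) - ν)) ∧
    (∃ c C X₀ : ℝ, 0 < c ∧ 0 < C ∧ (∀ X : ℝ, 1 ≤ X → (Invariants X).Finite ∧
        ((Invariants X).ncard : ℝ) ≤ C * X ^ ((2 : ℝ) / 3)) ∧
      ∀ X : ℝ, X₀ ≤ X → c * X ^ ((2 : ℝ) / 3) ≤ ((Invariants X).ncard : ℝ)) ∧
    ∀ ε : ℝ, 0 < ε → ∃ B ν C : ℝ, 0 < ν ∧ 0 < C ∧ ∀ X : ℝ, 1 ≤ X →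
      ({j | j ∈ Invariants X ∧ ¬ (HoldsJ (1 / 3 + ε) B j ∧ AttainedJ (1 / 3 - ε) B j)}.ncard : ℝ) ≤
        C * X ^ ((2 : ℝ) / 3 - ν) := by
  obtain ⟨C₀, hC₀⟩ := Pool.Agent.Y679.Fh.fh_le
  refine ⟨fun n a b g h => ?_, Pool.Agent.Y421.SZ.t.1, fun ε hε => ?_⟩
  · have hF : Pool.Agent.Y670.RD.Fam n a b g :=
      ⟨h.pos, h.deg_a, h.deg_b, h.deg_disc, h.nonisotrivial, h.minimal, h.squarefree, h.dvd,
        h.dvd_pow⟩
    obtain ⟨d, hd⟩ := Pool.Agent.Y679.Md.deg_three hF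
    refine ⟨hF.dav, (Pool.Agent.Y679.Md.count_main hd h.squarefree h.splits).1, fun ε hε => ?_⟩
    obtain ⟨C₁, hC₁⟩ := Pool.Agent.Y679.Fh.fh_ge hε
    obtain ⟨ν, C, hν, hC, hX⟩ := Pool.Agent.Y679.Md.fam_main hF h.splits (6 * ε) (by positivity)
    obtain ⟨κ, hκ⟩ : ∃ κ : ℝ, κ = 1 / 4 + (n : ℝ) / (4 * g.natDegree) := ⟨_, rfl⟩
    have hγ : n + 2 ≤ g.natDegree := hF.dav
    have hγ0 : (0 : ℝ) < g.natDegree := by
      have : 0 < g.natDegree := by omega
      exact_mod_cast this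
    have hκ12 : 3 + 3 * (n : ℝ) / (g.natDegree : ℝ) = 12 * κ := by
      rw [hκ]
      field_simp
      ring
    have hκ2 : κ ≤ 1 / 2 := by
      have h1 : (n : ℝ) / (4 * g.natDegree) ≤ 1 / 4 := by
        rw [div_le_iff₀ (by positivity)]
        have : (n : ℝ) + 2 ≤ g.natDegree := by exact_mod_cast hγ
        linarith
      rw [hκ]
      linarith
    rw [← hκ]
    refine ⟨max (C₀ / 12) (C₁ / 12), ν, C, hν, hC, fun X hX1 => ?_⟩
    obtain ⟨hfin, hcard⟩ := hX X hX1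
    refine le_trans (Nat.cast_le.mpr (Set.ncard_le_ncard ?_ hfin)) hcard
    rintro P ⟨hP, hn⟩
    refine ⟨hP, fun hg => hn ⟨?_, ?_⟩⟩
    · rintro W τ hW ⟨u, h4, h6⟩ hτ
      have h7 := hg.1 W u hW h4 h6
      rw [hκ12] at h7
      have h8 := up_of hC₀ hε hW hτ h7
      have h9 := le_max_left (C₀ / 12) (C₁ / 12)
      linarith
    · obtain ⟨W, u, hW, h4, h6, hle⟩ := hg.2
      rw [hκ12] at hle
      obtain ⟨τ, hτ, h8⟩ := low_of hε hκ2 hC₁ hW hle
      have h9 := le_max_right (C₀ / 12) (C₁ / 12)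
      exact ⟨W, τ, hW, ⟨u, h4, h6⟩, hτ, by linarith⟩
  · obtain ⟨C₁, hC₁⟩ := Pool.Agent.Y679.Fh.fh_ge hε
    obtain ⟨ν, C, hν, hC, h⟩ := Pool.Agent.Y679.Md.j_main (6 * ε) (by positivity)
    refine ⟨max (C₀ / 12) (C₁ / 12), ν, C, hν, hC, fun X hX1 => ?_⟩
    obtain ⟨hfin, hcard⟩ := h X hX1
    refine le_trans (Nat.cast_le.mpr (Set.ncard_le_ncard ?_ hfin)) hcard
    rintro j ⟨hj, hn⟩
    refine ⟨hj, fun hg => hn ⟨?_, ?_⟩⟩
    · intro W τ hW hWj hτ
      have h7 := hg.1 W hW hWj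
      have e : (4 : ℝ) + 6 * ε = 12 * (1 / 3) + 6 * ε := by ring
      rw [e] at h7
      have h8 := up_of hC₀ hε hW hτ h7
      have h9 := le_max_left (C₀ / 12) (C₁ / 12)
      linarith
    · obtain ⟨W, hW, hWj, hle⟩ := hg.2
      have e : (4 : ℝ) - 6 * ε = 12 * (1 / 3) - 6 * ε := by ring
      rw [e] at hle
      obtain ⟨τ, hτ, h8⟩ := low_of hε (by norm_num) hC₁ hW hle
      have h9 := le_max_right (C₀ / 12) (C₁ / 12)
      exact ⟨W, τ, hW, hWj, hτ, by linarith⟩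

end Pool.Agent.Results.MP_6babc4_nt.FreyForAllTwists
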