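import Mathlib
import Pool.Agent.Y679.Fh.Bd

/-!
# The Faltings height is `(1 / 6) log N + O(1)` for almost all curves with full 2-torsion

All elliptic curves `E` over `ℚ` with full rational 2-torsion, ordered by the conductor `N_E`, with no
bound on the heights. The Faltings height satisfies `h_F(E) ≥ (1 / 6) log N_E - C` for all of them, and
`h_F(E) < (1 / 6) log N_E + c` for all but a proportion `C exp (-t c)` of them, for every `t < 2`. The
exponent `2` is sharp: at least the proportion `c₀ exp (-2 c)` has `h_F(E) ≥ (1 / 6) log N_E + c`. So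
`h_F(E) - (1 / 6) log N_E` is bounded in probability, but it is not bounded.
-/

set_option autoImplicit false

namespace Pool.Agent.Results.MP_6babc4_nt.SlopeBoundedError

open Filter Topology

/-- the discriminant of `x³ - a x - b` -/
def Disc (a b : ℤ) : ℤ := 4 * a ^ 3 - 27 * b ^ 2

/-- `y² = x³ - a x - b` is an elliptic curve and `|Disc|` is least among the integral models
`y² = x³ - a' x - b'`, `a' = u⁴ a`, `b' = u⁶ b`, `u ∈ ℚ^×`. Every elliptic curve over `ℚ` has exactly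
one such model. -/
def IsMinimal (a b : ℤ) : Prop :=
  Disc a b ≠ 0 ∧ ∀ (u : ℚ) (a' b' : ℤ), u ≠ 0 → (a' : ℚ) = u ^ 4 * a → (b' : ℚ) = u ^ 6 * b →
    |Disc a b| ≤ |Disc a' b'|

/-- all 2-torsion points are rational: `x³ - a x - b` splits over `ℚ` -/
def FullTwoTorsion (a b : ℤ) : Prop :=
  ∃ r₁ r₂ r₃ : ℚ, ∀ x : ℚ, x ^ 3 - a * x - b = (x - r₁) * (x - r₂) * (x - r₃)

/-- the prime-to-6 part of the conductor of a minimal model: the product over the primes `p ≥ 5`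
dividing `Disc` of `p` (multiplicative reduction: `p ∤ a`) or `p²` (additive reduction: `p ∣ a`) -/
def Cond6 (a b : ℤ) : ℕ :=
  ∏ p ∈ (Disc a b).natAbs.primeFactors.filter (fun p => 5 ≤ p), if (p : ℤ) ∣ a then p ^ 2 else p

/-- the curve `y² = x³ - a x - b` over `ℚ`, `q = (a, b)` -/
def E (q : ℤ × ℤ) : WeierstrassCurve ℚ := ⟨0, 0, 0, -(q.1 : ℚ), -(q.2 : ℚ)⟩

/-- the absolute value of the minimal discriminant of an elliptic curve `W` over `ℚ`: the smallest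
absolute value of the discriminant of a Weierstrass equation `V` with integer coefficients which is
isomorphic to `W` over `ℚ` -/
noncomputable def minDisc (W : WeierstrassCurve ℚ) : ℕ :=
  sInf {n : ℕ | ∃ (V : WeierstrassCurve ℤ) (C : WeierstrassCurve.VariableChange ℚ),
    C • W = V.map (Int.castRingHom ℚ) ∧ n = V.Δ.natAbs}

/-- the modular invariant `j(τ) = E₄(τ) ^ 3 / Δ(τ) = 1 / q + 744 + ⋯` -/
noncomputable def jInv (τ : UpperHalfPlane) : ℂ :=
  ModularForm.E₄ τ ^ 3 / ModularForm.discriminant τ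

/-- the archimedean term `- log (|Δ(τ)| (Im τ) ^ 6)` of the Faltings height -/
noncomputable def arch (τ : UpperHalfPlane) : ℝ :=
  -Real.log (‖ModularForm.discriminant τ‖ * τ.im ^ 6)

/-- `E(ℂ)` is isomorphic to `ℂ / (ℤ + ℤ τ)`: `j(τ) = c₄³ / Δ` is the invariant of `E` -/
def IsPeriod (q : ℤ × ℤ) (τ : UpperHalfPlane) : Prop :=
  jInv τ = (((E q).c₄ ^ 3 / (E q).Δ : ℚ) : ℂ)

/-- The Faltings height over `ℚ` (up to an additive constant which depends on the normalisation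
only): `12 h_F(E)` is the logarithm of the minimal discriminant plus the archimedean term at a period
`τ` of the curve. -/
noncomputable def height (q : ℤ × ℤ) (τ : UpperHalfPlane) : ℝ :=
  (Real.log (minDisc (E q) : ℝ) + arch τ) / 12

/-- the admissible factors: functions with values between `1` and `2 ^ 8 * 3 ^ 5`, for instance the
part of the conductor composed of the primes 2 and 3, or `f = 1` -/
def Factor (f : ℤ × ℤ → ℕ) : Prop := ∀ q, 1 ≤ f q ∧ f q ≤ 2 ^ 8 * 3 ^ 5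

/-- the minimal models with full 2-torsion and `f * Cond6 ≤ N` (for a suitable factor `f`: the
conductor is at most `N`), of all heights -/
def Curves (f : ℤ × ℤ → ℕ) (N : ℝ) : Set (ℤ × ℤ) :=
  {q | IsMinimal q.1 q.2 ∧ FullTwoTorsion q.1 q.2 ∧ ((f q * Cond6 q.1 q.2 : ℕ) : ℝ) ≤ N}

/-- those with `h_F ≥ (1 / 6) log N₆ + c` -/
def High (f : ℤ × ℤ → ℕ) (c N : ℝ) : Set (ℤ × ℤ) :=
  {q | q ∈ Curves f N ∧ ∃ τ, IsPeriod q τ ∧ Real.log (Cond6 q.1 q.2 : ℝ) / 6 + c ≤ height q τ}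

/-- those with `|h_F - (1 / 6) log N₆| > c` -/
def Far (f : ℤ × ℤ → ℕ) (c N : ℝ) : Set (ℤ × ℤ) :=
  {q | q ∈ Curves f N ∧ ∃ τ, IsPeriod q τ ∧ c < |height q τ - Real.log (Cond6 q.1 q.2 : ℝ) / 6|}

/-- **Theorem.** Order all elliptic curves over `ℚ` with full rational 2-torsion by the conductor
(`f * N₆`, where `f` is an arbitrary factor as in `Factor`), with no bound on the heights.
(1) Every curve has a period, and `h_F ≥ (1 / 6) log N₆ - C` for all the curves.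
(2) For `0 < t < 2` there are `η > 0` and `C` such that at most
`C (exp (-t c) N ^ (2/3) + N ^ (2/3 - η))` curves of conductor at most `N` have
`h_F ≥ (1 / 6) log N₆ + c`, for all `N ≥ 1` and `c ≥ 0`.
(3) There are `c₀ > 0` and `C` such that at least `c₀ exp (-2 c) N ^ (2/3)` curves of conductor at most
`N` have `h_F ≥ (1 / 6) log N₆ + c`, for all `c ≥ 0` and `N ≥ C exp (12 c)`.
(4) The number of the curves of conductor at most `N` is between `c₁ N ^ (2/3)` and `C₁ N ^ (2/3)` for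
large `N`; for every `ε > 0` there is `c` such that for all large `N` at most the proportion `ε` of them
has `|h_F - (1 / 6) log N₆| > c`. -/
theorem result :
    (∃ C : ℝ, ∀ q : ℤ × ℤ, IsMinimal q.1 q.2 → FullTwoTorsion q.1 q.2 → (∃ τ, IsPeriod q τ) ∧
      ∀ τ, IsPeriod q τ → Real.log (Cond6 q.1 q.2 : ℝ) / 6 - C ≤ height q τ) ∧
    (∀ t : ℝ, 0 < t → t < 2 → ∃ η C : ℝ, 0 < η ∧ ∀ f : ℤ × ℤ → ℕ, Factor f →
      ∀ N c : ℝ, 1 ≤ N → 0 ≤ c → ((High f c N).ncard : ℝ) ≤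
        C * (Real.exp (-(t * c)) * N ^ ((2 : ℝ) / 3) + N ^ (2 / 3 - η))) ∧
    (∃ c₀ C : ℝ, 0 < c₀ ∧ ∀ f : ℤ × ℤ → ℕ, Factor f → ∀ N c : ℝ, 0 ≤ c →
      C * Real.exp (12 * c) ≤ N →
        c₀ * (Real.exp (-(2 * c)) * N ^ ((2 : ℝ) / 3)) ≤ ((High f c N).ncard : ℝ)) ∧
    (∃ c₁ C₁ : ℝ, 0 < c₁ ∧ ∀ f : ℤ × ℤ → ℕ, Factor f → (∀ N : ℝ, 1 ≤ N → (Curves f N).Finite) ∧
      ∀ᶠ N : ℝ in atTop, c₁ * N ^ ((2 : ℝ) / 3) ≤ ((Curves f N).ncard : ℝ) ∧
        ((Curves f N).ncard : ℝ) ≤ C₁ * N ^ ((2 : ℝ) / 3)) ∧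
    ∀ ε : ℝ, 0 < ε → ∃ c : ℝ, ∀ f : ℤ × ℤ → ℕ, Factor f → ∀ᶠ N : ℝ in atTop,
      ((Far f c N).ncard : ℝ) ≤ ε * ((Curves f N).ncard : ℝ) := by
  have hlam : ∀ f : ℤ × ℤ → ℕ, Factor f → ∀ q : ℤ × ℤ, IsMinimal q.1 q.2 →
      FullTwoTorsion q.1 q.2 → 1 ≤ f q ∧ f q ≤ 62208 :=
    fun f hf q _ _ => ⟨(hf q).1, (hf q).2.trans (by norm_num)⟩
  have hfin : ∀ f : ℤ × ℤ → ℕ, Factor f → ∀ N : ℝ, 1 ≤ N → (Curves f N).Finite :=
    fun f hf N hN => Pool.Agent.Y679.Par.Md_fin (fun q a b => (hlam f hf q a b).1) hN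
  obtain ⟨C0, hC0, hge⟩ := Pool.Agent.Y679.Fh.ht_ge
  have hlow : ∀ q : ℤ × ℤ, IsMinimal q.1 q.2 → FullTwoTorsion q.1 q.2 → ∀ τ,
      Real.log (Cond6 q.1 q.2 : ℝ) / 6 - C0 / 12 ≤ height q τ := by
    intro q h1 h2 τ
    have h3 := hge q h1 h2 τ
    obtain ⟨w, hw, he⟩ := Pool.Agent.Y679.Par.quot h1 h2
    have hcs : 0 < Cond6 q.1 q.2 := Pool.Agent.Y679.Cur.condS_pos q.1 q.2
    have hcs' : (0 : ℝ) < (Cond6 q.1 q.2 : ℝ) := by exact_mod_cast hcs
    have h4 : ((Cond6 q.1 q.2 : ℕ) : ℝ) ^ 2 ≤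
        ((Pool.Agent.H925R.Szpiro.D q.1 q.2 : ℤ) : ℝ) := by
      rw [he]
      have h5 : Cond6 q.1 q.2 ≤ w * Cond6 q.1 q.2 := Nat.le_mul_of_pos_left _ hw
      have h6 : ((Cond6 q.1 q.2 : ℕ) : ℝ) ^ 2 ≤ ((w * Cond6 q.1 q.2 : ℕ) : ℝ) ^ 2 :=
        pow_le_pow_left₀ (Nat.cast_nonneg _) (by exact_mod_cast h5) 2
      refine h6.trans (le_of_eq ?_)
      push_cast
      rfl
    have h5 := Real.log_le_log (by positivity) h4
    rw [Real.log_pow] at h5
    push_cast at h5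
    have h6 : 12 * Pool.Agent.Y679.Fh.height q τ = 12 * height q τ := rfl
    rw [h6] at h3
    linarith
  have hup := fun (t : ℝ) (h1 : 0 < t) (h2 : t < 2) => Pool.Agent.Y679.Fh.Hg_le h1 h2
  obtain ⟨c₀, C1, hc₀, hC1, hg⟩ := Pool.Agent.Y679.Fh.Hg_ge
  obtain ⟨C2, hC2, hmd⟩ := Pool.Agent.Y679.Fh.Md_up
  have hcnt : ∀ f : ℤ × ℤ → ℕ, Factor f → ∀ N : ℝ, max C1 1 ≤ N →
      c₀ * N ^ ((2 : ℝ) / 3) ≤ ((Curves f N).ncard : ℝ) := by
    intro f hf N hN
    have hN1 : 1 ≤ N := (le_max_right _ _).trans hN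
    have h1 := hg f (hlam f hf) N 0 le_rfl (by
      rw [mul_zero, Real.exp_zero, mul_one]
      exact (le_max_left _ _).trans hN)
    rw [mul_zero, neg_zero, Real.exp_zero, one_mul] at h1
    exact h1.trans (Nat.cast_le.2 (Set.ncard_le_ncard (fun q hq => hq.1) (hfin f hf N hN1)))
  refine ⟨⟨C0 / 12, fun q h1 h2 => ⟨Pool.Agent.Y679.Fh.ex_per q, fun τ _ => hlow q h1 h2 τ⟩⟩,
    fun t h1 h2 => ?_, ⟨c₀, C1, hc₀, fun f hf N c hc hN => hg f (hlam f hf) N c hc hN⟩,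
    ⟨c₀, C2, hc₀, fun f hf => ⟨hfin f hf, ?_⟩⟩, fun ε hε => ?_⟩
  · obtain ⟨η, C, hη, hC, h⟩ := hup t h1 h2
    exact ⟨η, C, hη, fun f hf N c hN hc => h f (fun q a b => (hlam f hf q a b).1) N c hN hc⟩
  · filter_upwards [eventually_ge_atTop (max C1 1)] with N hN
    exact ⟨hcnt f hf N hN, hmd f (fun q a b => (hlam f hf q a b).1) N
      ((le_max_right _ _).trans hN)⟩
  · obtain ⟨η, C, hη, hC, h⟩ := hup 1 one_pos (by norm_num)
    -- the constant
    have hexp : Tendsto (fun c : ℝ => C * Real.exp (-(1 * c))) atTop (𝓝 0) := by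
      have h1 := (Real.tendsto_exp_neg_atTop_nhds_zero).const_mul C
      simpa using h1
    obtain ⟨c, hc1, hc2⟩ := ((hexp.eventually_lt_const (show (0 : ℝ) < ε * c₀ / 2 by
      positivity)).and (eventually_ge_atTop (C0 / 12))).exists
    have hc0 : 0 ≤ c := le_trans (by positivity) hc2
    refine ⟨c, fun f hf => ?_⟩
    have hpow : Tendsto (fun N : ℝ => C * N ^ (-η)) atTop (𝓝 0) := by
      have h1 := (tendsto_rpow_neg_atTop hη).const_mul C
      rwa [mul_zero] at h1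
    filter_upwards [eventually_ge_atTop (max C1 1), hpow.eventually_lt_const
      (show (0 : ℝ) < ε * c₀ / 2 by positivity)] with N hN hN2
    have hN1 : 1 ≤ N := (le_max_right _ _).trans hN
    have hN0 : 0 < N := by linarith
    have h1 : Far f c N ⊆ High f c N := by
      rintro q ⟨hq, τ, hτ, hq2⟩
      refine ⟨hq, τ, hτ, ?_⟩
      have h2 := hlow q hq.1 hq.2.1 τ
      rcases lt_abs.1 hq2 with h3 | h3
      · linarith
      · linarith
    have h2 : ((Far f c N).ncard : ℝ) ≤ ((High f c N).ncard : ℝ) :=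
      Nat.cast_le.2 (Set.ncard_le_ncard h1 ((hfin f hf N hN1).subset fun q hq => hq.1))
    have h3 := h f (fun q a b => (hlam f hf q a b).1) N c hN1 hc0
    have h4 : ((High f c N).ncard : ℝ) ≤
        C * (Real.exp (-(1 * c)) * N ^ ((2 : ℝ) / 3) + N ^ (2 / 3 - η)) := h3
    have h5 : N ^ ((2 : ℝ) / 3 - η) = N ^ ((2 : ℝ) / 3) * N ^ (-η) := by
      rw [← Real.rpow_add hN0, sub_eq_add_neg]
    have hx : (0 : ℝ) < N ^ ((2 : ℝ) / 3) := by positivity
    have h6 := hcnt f hf N hN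
    calc ((Far f c N).ncard : ℝ)
        ≤ C * (Real.exp (-(1 * c)) * N ^ ((2 : ℝ) / 3) + N ^ ((2 : ℝ) / 3 - η)) := h2.trans h4
      _ = (C * Real.exp (-(1 * c)) + C * N ^ (-η)) * N ^ ((2 : ℝ) / 3) := by
          rw [h5]
          ring
      _ ≤ (ε * c₀ / 2 + ε * c₀ / 2) * N ^ ((2 : ℝ) / 3) :=
          mul_le_mul_of_nonneg_right (by linarith) hx.le
      _ = ε * (c₀ * N ^ ((2 : ℝ) / 3)) := by ring
      _ ≤ _ := mul_le_mul_of_nonneg_left h6 hε.le

end Pool.Agent.Results.MP_6babc4_nt.SlopeBoundedError
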